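import Mathlib

/-!
A verified test for polynomial inequalities on boxes, by subdivision, computed by the kernel.

Polynomials with integer coefficients in `n` variables are nested lists (`List ℤ`, `List (List ℤ)`,
`List (List (List ℤ))`, ...; the outermost list belongs to the first variable).  A box is a list of
pairs `(c, h)`, standing for `c ≤ x ≤ c + h`.  Given a list `alts` of alternatives (each alternative is
a list of polynomials), `run alts fuel code [box]` checks that in every point of the box all
polynomials of some alternative are positive.  The base 16 digits of `code` (lowest first) tell what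
to do with the first box of the stack: a digit `k < 4` halves the variable `k`, a digit `4 + i` uses
the alternative `i` (Taylor expansion at the corner and Horner lower bound).
-/

set_option autoImplicit false

namespace Pool.Agent.Helper63.PolyBox

/-- the point `xs` lies in the box `bx` -/
def InBox (bx : List (ℤ × ℤ)) (xs : List ℝ) : Prop :=
  List.Forall₂ (fun (b : ℤ × ℤ) (x : ℝ) => (b.1 : ℝ) ≤ x ∧ x ≤ b.1 + b.2) bx xs

/-- dense representations of polynomials with integer coefficients -/
class Rep (α : Type) where
  /-- sum -/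
  add : α → α → α
  /-- integer multiple -/
  smul : ℤ → α → α
  /-- Taylor expansion at the corner of the box -/
  shift : List (ℤ × ℤ) → α → α
  /-- lower bound on `∏ [0, h]` -/
  lb : List (ℤ × ℤ) → α → ℤ
  /-- value at a point -/
  val : List ℝ → α → ℝ
  val_add : ∀ xs a b, val xs (add a b) = val xs a + val xs b
  val_smul : ∀ xs (c : ℤ) a, val xs (smul c a) = c * val xs a
  val_shift : ∀ (bx : List (ℤ × ℤ)) xs a, bx.length = xs.length →
    val xs (shift bx a) = val (List.zipWith (fun (b : ℤ × ℤ) (x : ℝ) => (b.1 : ℝ) + x) bx xs) a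
  lb_le : ∀ (bx : List (ℤ × ℤ)) (xs : List ℝ) a,
    List.Forall₂ (fun (b : ℤ × ℤ) (x : ℝ) => 0 ≤ x ∧ x ≤ b.2) bx xs → (lb bx a : ℝ) ≤ val xs a

/-- the negative part, with sign -/
def neg0 : ℤ → ℤ
  | .ofNat _ => 0
  | .negSucc n => .negSucc n

theorem neg0_nonpos (z : ℤ) : neg0 z ≤ 0 := by
  cases z with
  | ofNat n => exact le_rfl
  | negSucc n => exact (Int.negSucc_lt_zero n).le

theorem neg0_le (z : ℤ) : neg0 z ≤ z := by
  cases z with
  | ofNat n => exact Int.natCast_nonneg n
  | negSucc n => exact le_rfl

instance : Rep ℤ where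
  add a b := a + b
  smul c a := c * a
  shift _ a := a
  lb _ a := a
  val _ a := a
  val_add _ a b := by push_cast; ring
  val_smul _ c a := by push_cast; ring
  val_shift _ _ _ _ := rfl
  lb_le _ _ _ _ := le_rfl

section list
variable {α : Type} [Rep α]

/-- sum of lists of coefficients -/
def ladd : List α → List α → List α
  | [], b => b
  | a :: as, [] => a :: as
  | a :: as, b :: bs => Rep.add a b :: ladd as bs

/-- coefficients of `a + (c + x) * s` -/
def step (c : ℤ) : α → List α → List α
  | a, [] => [a]
  | a, s :: ss => Rep.add a (Rep.smul c s) :: step c s ss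

/-- value of a list -/
noncomputable def lval (x : ℝ) (xt : List ℝ) : List α → ℝ
  | [] => 0
  | a :: as => Rep.val xt a + x * lval x xt as

/-- shift of a list -/
def lshift (c : ℤ) (bt : List (ℤ × ℤ)) : List α → List α
  | [] => []
  | a :: as => step c (Rep.shift bt a) (lshift c bt as)

/-- lower bound of a list -/
def llb (h : ℤ) (bt : List (ℤ × ℤ)) : List α → ℤ
  | [] => 0
  | a :: as => Rep.lb bt a + neg0 (h * llb h bt as)

theorem lval_ladd (x : ℝ) (xt : List ℝ) (a b : List α) :
    lval x xt (ladd a b) = lval x xt a + lval x xt b := by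
  induction a generalizing b with
  | nil => simp [ladd, lval]
  | cons a as ih =>
    cases b with
    | nil => simp [ladd, lval]
    | cons b bs =>
      simp only [ladd, lval, ih, Rep.val_add]
      ring

theorem lval_map_smul (x : ℝ) (xt : List ℝ) (c : ℤ) (a : List α) :
    lval x xt (a.map (Rep.smul c)) = c * lval x xt a := by
  induction a with
  | nil => simp [lval]
  | cons a as ih =>
    simp only [List.map_cons, lval, ih, Rep.val_smul]
    ring

theorem lval_step (x : ℝ) (xt : List ℝ) (c : ℤ) (a : α) (s : List α) :
    lval x xt (step c a s) = Rep.val xt a + (c + x) * lval x xt s := by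
  induction s generalizing a with
  | nil => simp [step, lval]
  | cons s ss ih =>
    simp only [step, lval, ih, Rep.val_add, Rep.val_smul]
    ring

theorem lval_lshift (x : ℝ) (xt : List ℝ) (c : ℤ) (bt : List (ℤ × ℤ)) (hl : bt.length = xt.length)
    (a : List α) : lval x xt (lshift c bt a) =
      lval (c + x) (List.zipWith (fun (b : ℤ × ℤ) (x : ℝ) => (b.1 : ℝ) + x) bt xt) a := by
  induction a with
  | nil => simp [lshift, lval]
  | cons a as ih =>
    rw [lshift, lval_step, ih, Rep.val_shift _ _ _ hl, lval]

theorem llb_le (x : ℝ) (xt : List ℝ) (h : ℤ) (bt : List (ℤ × ℤ)) (hx : 0 ≤ x ∧ x ≤ h)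
    (hb : List.Forall₂ (fun (b : ℤ × ℤ) (x : ℝ) => 0 ≤ x ∧ x ≤ b.2) bt xt) (a : List α) :
    (llb h bt a : ℝ) ≤ lval x xt a := by
  induction a with
  | nil => simp [llb, lval]
  | cons a as ih =>
    simp only [llb, lval]
    push_cast
    refine add_le_add (Rep.lb_le _ _ _ hb) ?_
    by_cases hs : 0 ≤ llb h bt as
    · have h1 : (neg0 (h * llb h bt as) : ℝ) ≤ 0 := by exact_mod_cast neg0_nonpos _
      have h2 : (0 : ℝ) ≤ llb h bt as := by exact_mod_cast hs
      exact h1.trans (mul_nonneg hx.1 (h2.trans ih))
    · have h1 : (neg0 (h * llb h bt as) : ℝ) ≤ ((h * llb h bt as : ℤ) : ℝ) := by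
        exact_mod_cast neg0_le _
      push_cast at h1
      have h2 : (llb h bt as : ℝ) ≤ 0 := by exact_mod_cast (not_le.mp hs).le
      have h3 : (h : ℝ) * llb h bt as ≤ x * llb h bt as := mul_le_mul_of_nonpos_right hx.2 h2
      exact h1.trans (h3.trans (mul_le_mul_of_nonneg_left ih hx.1))

end list

noncomputable instance {α : Type} [Rep α] : Rep (List α) where
  add := ladd
  smul c a := a.map (Rep.smul c)
  shift bx a := match bx with
    | [] => lshift 0 [] a
    | b :: bt => lshift b.1 bt a
  lb bx a := match bx with
    | [] => llb 0 [] a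
    | b :: bt => llb b.2 bt a
  val xs a := match xs with
    | [] => lval 0 [] a
    | x :: xt => lval x xt a
  val_add xs a b := by cases xs <;> exact lval_ladd _ _ _ _
  val_smul xs c a := by cases xs <;> exact lval_map_smul _ _ _ _
  val_shift bx xs a hl := by
    cases bx with
    | nil =>
      cases xs with
      | nil => simpa using lval_lshift 0 [] 0 [] rfl a
      | cons x xt => simp at hl
    | cons b bt =>
      cases xs with
      | nil => simp at hl
      | cons x xt => exact lval_lshift x xt b.1 bt (by simpa using hl) a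
  lb_le bx xs a h := by
    cases h with
    | nil => exact llb_le 0 [] 0 [] (by simp) List.Forall₂.nil a
    | cons h1 h2 => exact llb_le _ _ _ _ h1 h2 a

/-- the two halves of a box -/
def halve : ℕ → List (ℤ × ℤ) → List (ℤ × ℤ) × List (ℤ × ℤ)
  | _, [] => ([], [])
  | 0, b :: bs => ((b.1, b.2 / 2) :: bs, (b.1 + b.2 / 2, b.2 - b.2 / 2) :: bs)
  | k + 1, b :: bs => (b :: (halve k bs).1, b :: (halve k bs).2)

theorem halve_sound (k : ℕ) (bx : List (ℤ × ℤ)) (xs : List ℝ) (h : InBox bx xs) :
    InBox (halve k bx).1 xs ∨ InBox (halve k bx).2 xs := by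
  unfold InBox at *
  induction h generalizing k with
  | nil => cases k <;> exact Or.inl List.Forall₂.nil
  | @cons b x bs xs hb hbs ih =>
    cases k with
    | zero =>
      rcases le_total x ((b.1 : ℝ) + (b.2 / 2 : ℤ)) with h | h
      · exact Or.inl (List.Forall₂.cons ⟨hb.1, h⟩ hbs)
      · refine Or.inr (List.Forall₂.cons ⟨by push_cast; exact h, ?_⟩ hbs)
        push_cast
        have := hb.2
        linarith
    | succ k =>
      rcases ih k with h | h
      · exact Or.inl (List.Forall₂.cons hb h)
      · exact Or.inr (List.Forall₂.cons hb h)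

section run
variable {α : Type} [Rep α]

/-- all polynomials are positive on the box -/
def good (bx : List (ℤ × ℤ)) (ps : List α) : Bool :=
  ps.all fun p => decide (0 < Rep.lb bx (Rep.shift bx p))

theorem good_sound (bx : List (ℤ × ℤ)) (ps : List α) (h : good bx ps = true) (xs : List ℝ)
    (hx : InBox bx xs) : ∀ p ∈ ps, 0 < Rep.val xs p := by
  intro p hp
  have h1 : 0 < Rep.lb bx (Rep.shift bx p) := by
    have := List.all_eq_true.mp h p hp
    simpa using this
  have key : ∀ (bx : List (ℤ × ℤ)) (xs : List ℝ), InBox bx xs →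
      ∃ ys : List ℝ, bx.length = ys.length ∧
        List.Forall₂ (fun (b : ℤ × ℤ) (x : ℝ) => 0 ≤ x ∧ x ≤ b.2) bx ys ∧
        List.zipWith (fun (b : ℤ × ℤ) (x : ℝ) => (b.1 : ℝ) + x) bx ys = xs := by
    intro bx xs hx
    unfold InBox at hx
    induction hx with
    | nil => exact ⟨[], rfl, List.Forall₂.nil, rfl⟩
    | @cons b x bs xs hb hbs ih =>
      obtain ⟨ys, h1, h2, h3⟩ := ih
      refine ⟨(x - b.1) :: ys, by simp [h1], List.Forall₂.cons ⟨?_, ?_⟩ h2, ?_⟩
      · linarith [hb.1]
      · linarith [hb.2]
      · simp [h3]
  obtain ⟨ys, h2, h3, h4⟩ := key bx xs hx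
  have h5 := Rep.lb_le bx ys (Rep.shift bx p) h3
  rw [Rep.val_shift bx ys p h2, h4] at h5
  have h6 : (0 : ℝ) < Rep.lb bx (Rep.shift bx p) := by exact_mod_cast h1
  exact h6.trans_le h5

/-- the test -/
def run (alts : List (List α)) : ℕ → ℕ → List (List (ℤ × ℤ)) → Bool
  | _, _, [] => true
  | 0, _, _ :: _ => false
  | f + 1, code, bx :: st =>
    if code % 16 < 4 then
      run alts f (code / 16) ((halve (code % 16) bx).1 :: (halve (code % 16) bx).2 :: st)
    else
      match alts[code % 16 - 4]? with
      | some ps => good bx ps && run alts f (code / 16) st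
      | none => false

theorem run_sound (alts : List (List α)) (f code : ℕ) (st : List (List (ℤ × ℤ)))
    (h : run alts f code st = true) :
    ∀ bx ∈ st, ∀ xs : List ℝ, InBox bx xs → ∃ ps ∈ alts, ∀ p ∈ ps, 0 < Rep.val xs p := by
  induction f generalizing code st with
  | zero =>
    cases st with
    | nil => intro bx hbx; simp at hbx
    | cons bx st => simp [run] at h
  | succ f ih =>
    cases st with
    | nil => intro bx hbx; simp at hbx
    | cons b st =>
      intro bx hbx xs hxs
      rw [run] at h
      split_ifs at h with hc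
      · have h1 := ih _ _ h
        rcases List.mem_cons.mp hbx with rfl | hbx
        · rcases halve_sound (code % 16) bx xs hxs with h2 | h2
          · exact h1 _ (by simp) xs h2
          · exact h1 _ (by simp) xs h2
        · exact h1 bx (by simp [hbx]) xs hxs
      · split at h
        · rename_i ps hps
          rw [Bool.and_eq_true] at h
          rcases List.mem_cons.mp hbx with rfl | hbx
          · exact ⟨ps, List.mem_of_getElem? hps, good_sound bx ps h.1 xs hxs⟩
          · exact ih _ _ h.2 bx hbx xs hxs
        · simp at h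

end run

end Pool.Agent.Helper63.PolyBox
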